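import Pool.Agent.Run7.h681.BadCount

set_option autoImplicit false

/-!
Large subsets without bad triangles in Hilbert space: the property `P δ` fails exactly for
`0 < δ < 1`.  So the threshold is `1`, and `P 1` holds: the supremum is not attained.
-/

open Finset

namespace Pool.Agent.Results.MP_8cfbc5_co.Threshold

/-- The real Hilbert space `ℓ²`. -/
abbrev H : Type := lp (fun _ : ℕ => ℝ) 2

/-- Three points form a bad triangle for `δ`: two of their three distances are at most one and the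
remaining one is at least `1 + δ`. -/
def Bad (δ : ℝ) (x y z : H) : Prop :=
  (dist x y ≤ 1 ∧ dist y z ≤ 1 ∧ 1 + δ ≤ dist x z) ∨
  (dist x y ≤ 1 ∧ dist x z ≤ 1 ∧ 1 + δ ≤ dist y z) ∨
  (dist x z ≤ 1 ∧ dist y z ≤ 1 ∧ 1 + δ ≤ dist x y)

/-- The property `P δ`: for some `c > 0`, among any `n ≥ 1` points of `ℓ²` (repetitions allowed)
there are at least `c n` without a bad triangle. -/
def P (δ : ℝ) : Prop :=
  ∃ c : ℝ, 0 < c ∧ ∀ n : ℕ, 1 ≤ n → ∀ x : Fin n → H, ∃ I : Finset (Fin n),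
    c * n ≤ I.card ∧ ∀ i ∈ I, ∀ j ∈ I, ∀ k ∈ I, i ≠ j → j ≠ k → i ≠ k →
      ¬ Bad δ (x i) (x j) (x k)

/-! ### `P δ` holds for `δ ≥ 1` -/

lemma mid {a b c : H} (h1 : dist a b ≤ 1) (h2 : dist b c ≤ 1) (h3 : 2 ≤ dist a c) :
    ‖a‖ ^ 2 + ‖c‖ ^ 2 - 2 * ‖b‖ ^ 2 = 2 := by
  have e1 := parallelogram_law_with_norm ℝ (a - b) (b - c)
  have e2 := parallelogram_law_with_norm ℝ a c
  have e3 : a - b + (b - c) = a - c := by abel
  rw [e3] at e1
  rw [dist_eq_norm] at h1 h2 h3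
  have n1 := norm_nonneg (a - b)
  have n2 := norm_nonneg (b - c)
  have n3 := norm_nonneg (a - b - (b - c))
  have h4 : ‖a - b - (b - c)‖ = 0 := by nlinarith
  have h5 : ‖a - c‖ * ‖a - c‖ = 4 := by nlinarith
  have h6 : a + c = (2 : ℝ) • b := by
    rw [norm_eq_zero] at h4
    have : a + c - (2 : ℝ) • b = a - b - (b - c) := by
      rw [two_smul]; abel
    rw [← sub_eq_zero, this, h4]
  have h7 : ‖a + c‖ = 2 * ‖b‖ := by
    rw [h6, norm_smul]
    norm_num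
  rw [h7] at e2
  nlinarith

lemma holds {δ : ℝ} (hδ : 1 ≤ δ) : P δ := by
  classical
  refine ⟨1 / 4, by norm_num, fun n hn x => ?_⟩
  let t : Fin n → Fin 4 := fun i =>
    ⟨(⌊‖x i‖ ^ 2⌋ % 4).toNat, by
      have h1 := Int.emod_nonneg ⌊‖x i‖ ^ 2⌋ (by norm_num : (4 : ℤ) ≠ 0)
      have h2 := Int.emod_lt_of_pos ⌊‖x i‖ ^ 2⌋ (by norm_num : (0 : ℤ) < 4)
      omega⟩
  have hpig : ∃ r : Fin 4, (n : ℝ) / 4 ≤ ((univ.filter fun i => t i = r).card : ℝ) := by
    by_contra hcon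
    push Not at hcon
    have h1 : ∑ r : Fin 4, ((univ.filter fun i => t i = r).card : ℝ) = n := by
      have := Finset.card_eq_sum_card_fiberwise (f := t) (s := (univ : Finset (Fin n)))
        (t := (univ : Finset (Fin 4))) (fun _ _ => Finset.mem_coe.2 (Finset.mem_univ _))
      rw [Finset.card_univ, Fintype.card_fin] at this
      exact_mod_cast this.symm
    have h2 : ∑ r : Fin 4, ((univ.filter fun i => t i = r).card : ℝ) < ∑ r : Fin 4, (n : ℝ) / 4 :=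
      Finset.sum_lt_sum_of_nonempty ⟨0, Finset.mem_univ _⟩ (fun r _ => hcon r)
    rw [h1, Finset.sum_const, Finset.card_univ, Fintype.card_fin, nsmul_eq_mul] at h2
    push_cast at h2
    linarith
  obtain ⟨r, hr⟩ := hpig
  refine ⟨univ.filter fun i => t i = r, by linarith, ?_⟩
  have key : ∀ i j k : Fin n, t i = r → t j = r → t k = r → dist (x i) (x j) ≤ 1 →
      dist (x j) (x k) ≤ 1 → 1 + δ ≤ dist (x i) (x k) → False := by
    intro i j k hi hj hk h1 h2 h3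
    have hm := mid h1 h2 (by linarith)
    have fl : ∀ l : Fin n, t l = r → ∃ m : ℤ, ⌊‖x l‖ ^ 2⌋ = 4 * m + (r : ℕ) := by
      intro l hl
      have h1 := Int.emod_nonneg ⌊‖x l‖ ^ 2⌋ (by norm_num : (4 : ℤ) ≠ 0)
      have h2 : (⌊‖x l‖ ^ 2⌋ % 4).toNat = (r : ℕ) := congrArg Fin.val hl
      refine ⟨⌊‖x l‖ ^ 2⌋ / 4, ?_⟩
      omega
    obtain ⟨mi, hmi⟩ := fl i hi
    obtain ⟨mj, hmj⟩ := fl j hj
    obtain ⟨mk, hmk⟩ := fl k hk
    have a1 := Int.floor_le (‖x i‖ ^ 2)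
    have a2 := Int.lt_floor_add_one (‖x i‖ ^ 2)
    have b1 := Int.floor_le (‖x j‖ ^ 2)
    have b2 := Int.lt_floor_add_one (‖x j‖ ^ 2)
    have c1 := Int.floor_le (‖x k‖ ^ 2)
    have c2 := Int.lt_floor_add_one (‖x k‖ ^ 2)
    rw [hmi] at a1 a2
    rw [hmj] at b1 b2
    rw [hmk] at c1 c2
    push_cast at a1 a2 b1 b2 c1 c2
    have u1 : (4 * (mi + mk - 2 * mj) : ℝ) < 4 := by linarith
    have u2 : (0 : ℝ) < 4 * (mi + mk - 2 * mj) := by linarith
    have v1 : (4 * (mi + mk - 2 * mj) : ℤ) < 4 := by exact_mod_cast u1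
    have v2 : (0 : ℤ) < 4 * (mi + mk - 2 * mj) := by exact_mod_cast u2
    omega
  intro i hi j hj k hk _ _ _ hbad
  rw [Finset.mem_filter] at hi hj hk
  rcases hbad with ⟨h1, h2, h3⟩ | ⟨h1, h2, h3⟩ | ⟨h1, h2, h3⟩
  · exact key i j k hi.2 hj.2 hk.2 h1 h2 h3
  · exact key j i k hj.2 hi.2 hk.2 (by rwa [dist_comm]) h2 h3
  · exact key i k j hi.2 hk.2 hj.2 h1 (by rwa [dist_comm]) h3

/-! ### `P δ` fails for `δ < 1` -/

/-- A scaled isometric embedding of `ℤ ^ D` in `ℓ²`. -/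
lemma embed (D : ℕ) (s : ℝ) : ∃ φ : (Fin D → ℤ) → H, ∀ x y,
    dist (φ x) (φ y) ^ 2 = s ^ 2 * ∑ l, ((x l - y l : ℤ) : ℝ) ^ 2 := by
  let g : (Fin D → ℤ) → ℕ → ℝ := fun x i => if h : i < D then s * x ⟨i, h⟩ else 0
  refine ⟨fun x => ∑ i ∈ Finset.range D, lp.single 2 i (g x i), fun x y => ?_⟩
  have h1 : (∑ i ∈ Finset.range D, (lp.single 2 i (g x i) : H)) -
      ∑ i ∈ Finset.range D, (lp.single 2 i (g y i) : H) =
      ∑ i ∈ Finset.range D, (lp.single 2 i (g x i - g y i) : H) := by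
    rw [← Finset.sum_sub_distrib]
    refine Finset.sum_congr rfl fun i _ => ?_
    rw [lp.single_sub]
  have h2 := lp.norm_sum_single (p := 2) (E := fun _ : ℕ => ℝ) (by norm_num)
    (fun i => g x i - g y i) (Finset.range D)
  rw [dist_eq_norm, h1]
  have h3 : (2 : ENNReal).toReal = 2 := by norm_num
  rw [h3] at h2
  have h4 : ∀ t : ℝ, t ^ (2 : ℝ) = t ^ 2 := fun t => by
    rw [← Real.rpow_natCast]; norm_num
  rw [h4] at h2
  rw [h2, Finset.sum_range, Finset.mul_sum]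
  refine Finset.sum_congr rfl fun l _ => ?_
  rw [h4, Real.norm_eq_abs, sq_abs]
  simp only [g, l.2, dif_pos, Fin.eta]
  push_cast
  ring

lemma fails {δ : ℝ} (hδ0 : 0 < δ) (hδ : δ < 1) : ¬ P δ := by
  classical
  rintro ⟨c, hc, hP⟩
  set κ : ℝ := 4 - (1 + δ) ^ 2 with hκ
  have hκ0 : 0 < κ := by rw [hκ]; nlinarith
  set α : ℝ := c / 4 with hα
  have hα0 : 0 < α := by rw [hα]; positivity
  obtain ⟨D, hD⟩ := exists_nat_gt (1024 / (κ ^ 2 * α))
  have hD0r : (0 : ℝ) < D := lt_of_le_of_lt (by positivity) hD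
  have hD0 : 0 < D := by exact_mod_cast hD0r
  set u : ℝ := √(D / α) with hu
  have hu0 : 0 < u := Real.sqrt_pos.2 (by positivity)
  have hu2 : u ^ 2 = D / α := Real.sq_sqrt (by positivity)
  -- the main inequality
  have hmain : 32 * u ≤ κ * D := by
    have h1 : 1024 < D * (κ ^ 2 * α) := by
      rwa [div_lt_iff₀ (by positivity)] at hD
    have h2 : (32 * u) ^ 2 ≤ (κ * D) ^ 2 := by
      have h3 : (32 * u) ^ 2 * α = 1024 * D := by
        rw [mul_pow, hu2]; field_simp; norm_num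
      have h4 : 1024 * (D : ℝ) ≤ (κ * D) ^ 2 * α := by nlinarith
      rw [← h3] at h4
      exact le_of_mul_le_mul_right h4 hα0
    exact le_of_sq_le_sq h2 (by positivity)
  set N : ℕ := 2 * D with hN
  set n : ℕ := (Pool.Agent.Run7.h681.Bad.bx D N).card with hn
  have hnN : n = N ^ D := Pool.Agent.Run7.h681.Bad.card_bx D N
  have hn1 : 1 ≤ n := by
    rw [hnN]
    exact Nat.one_le_pow _ _ (by omega)
  have hS : (0 : ℝ) < D / 2 + u := by positivity
  obtain ⟨φ, hφ⟩ := embed D (√(1 / (D / 2 + u)))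
  have hs2 : √(1 / (D / 2 + u)) ^ 2 = 1 / (D / 2 + u) := Real.sq_sqrt (by positivity)
  rw [hs2] at hφ
  let eq := (Pool.Agent.Run7.h681.Bad.bx D N).equivFin
  obtain ⟨J, hJ, hbad⟩ := hP n hn1 (fun i => φ (eq.symm i).1)
  have hinj : Function.Injective (fun i : Fin n => (eq.symm i).1) :=
    Subtype.val_injective.comp eq.symm.injective
  set I := J.image (fun i : Fin n => (eq.symm i).1) with hI
  have hIc : I.card = J.card := Finset.card_image_of_injective _ hinj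
  have hIb : I ⊆ Pool.Agent.Run7.h681.Bad.bx D N := by
    intro y hy
    rw [hI, Finset.mem_image] at hy
    obtain ⟨i, -, rfl⟩ := hy
    exact (eq.symm i).2
  have hbern : ((N : ℝ) + 1) ^ D ≤ 2 * (N : ℝ) ^ D := by
    have hNr : (N : ℝ) = 2 * D := by rw [hN]; push_cast; ring
    have h1 := one_add_mul_le_pow (a := -(1 / ((N : ℝ) + 1))) (by
      have : 1 / ((N : ℝ) + 1) ≤ 1 := by
        rw [div_le_one (by positivity)]
        have : (0 : ℝ) ≤ N := by positivity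
        linarith
      linarith) D
    have h2 : 1 + -(1 / ((N : ℝ) + 1)) = N / ((N : ℝ) + 1) := by
      field_simp
      ring
    rw [h2, div_pow] at h1
    have h3 : (1 : ℝ) / 2 ≤ 1 + (D : ℝ) * -(1 / ((N : ℝ) + 1)) := by
      rw [hNr]
      have : (D : ℝ) * (1 / (2 * D + 1)) ≤ 1 / 2 := by
        rw [mul_one_div, div_le_div_iff₀ (by positivity) (by norm_num)]
        linarith
      linarith
    have h4 := h3.trans h1
    rw [le_div_iff₀ (by positivity)] at h4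
    linarith
  have hd : 2 * α * ((N : ℝ) + 1) ^ D ≤ I.card := by
    rw [hIc]
    have h1 : c * (n : ℝ) ≤ J.card := hJ
    have hnr : (n : ℝ) = (N : ℝ) ^ D := by exact_mod_cast hnN
    have h5 : c * (n : ℝ) = c * (N : ℝ) ^ D := congrArg (c * ·) hnr
    have h2 : 2 * α * ((N : ℝ) + 1) ^ D ≤ 2 * α * (2 * (N : ℝ) ^ D) :=
      mul_le_mul_of_nonneg_left hbern (by positivity)
    have h3 : 2 * α * (2 * (N : ℝ) ^ D) = c * (N : ℝ) ^ D := by rw [hα]; ring
    linarith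
  obtain ⟨x, hx, x1, hx1, x2, hx2, e1, e2, e3⟩ :=
    Pool.Agent.Run7.h681.Bad.config hD0 hα0 I hIb hd
  rw [← hu] at e1 e2 e3
  rw [hI, Finset.mem_image] at hx hx1 hx2
  obtain ⟨i, hi, rfl⟩ := hx
  obtain ⟨i1, hi1, rfl⟩ := hx1
  obtain ⟨i2, hi2, rfl⟩ := hx2
  have d1 : dist (φ (eq.symm i1).1) (φ (eq.symm i).1) ≤ 1 := by
    refine le_of_sq_le_sq ?_ zero_le_one
    rw [hφ, one_pow, one_div, inv_mul_le_iff₀ hS, mul_one]
    exact e1
  have d2 : dist (φ (eq.symm i2).1) (φ (eq.symm i).1) ≤ 1 := by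
    refine le_of_sq_le_sq ?_ zero_le_one
    rw [hφ, one_pow, one_div, inv_mul_le_iff₀ hS, mul_one]
    exact e2
  have d3 : 1 + δ ≤ dist (φ (eq.symm i1).1) (φ (eq.symm i2).1) := by
    refine le_of_sq_le_sq ?_ dist_nonneg
    rw [hφ, one_div, inv_mul_eq_div, le_div_iff₀ hS]
    refine le_trans ?_ e3
    have h1 : (1 + δ) ^ 2 = 4 - κ := by rw [hκ]; ring
    rw [h1]
    have h2 : 0 < κ * u := mul_pos hκ0 hu0
    nlinarith
  have n1 : i1 ≠ i := by
    rintro rfl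
    rw [dist_comm] at d2
    linarith
  have n2 : i ≠ i2 := by
    rintro rfl
    linarith
  have n3 : i1 ≠ i2 := by
    rintro rfl
    rw [dist_self] at d3
    linarith
  exact hbad i1 hi1 i hi i2 hi2 n1 n2 n3 (Or.inl ⟨d1, by rwa [dist_comm], d3⟩)

/-- **The threshold for bad triangles is `1` and is not attained**: `P δ` fails exactly for
`0 < δ < 1`; the supremum of these `δ` is `1`; and `P 1` holds. -/
theorem result : {δ : ℝ | 0 < δ ∧ ¬ P δ} = Set.Ioo 0 1 ∧ sSup {δ : ℝ | 0 < δ ∧ ¬ P δ} = 1 ∧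
    P 1 := by
  have h : {δ : ℝ | 0 < δ ∧ ¬ P δ} = Set.Ioo 0 1 := by
    ext δ
    constructor
    · rintro ⟨h1, h2⟩
      refine ⟨h1, ?_⟩
      by_contra h3
      exact h2 (holds (not_lt.1 h3))
    · rintro ⟨h1, h2⟩
      exact ⟨h1, fails h1 h2⟩
  exact ⟨h, by rw [h, csSup_Ioo zero_lt_one], holds le_rfl⟩

end Pool.Agent.Results.MP_8cfbc5_co.Threshold
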